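import Pool.Agent.R908.KoC

/-!
# The conjectures D and B for products with varieties of three kinds
-/

open CategoryTheory AlgebraicGeometry TensorProduct

universe u v

namespace Pool.Agent.N190.An

open Pool.Agent.H914 Pool.Agent.H914.VarClass Pool.Agent.H914.VarClass.Obj
  Pool.Agent.H914.WeilCohomology Pool.Agent.H281R3.HT Pool.Agent.R908

variable {k : Type u} [Field k] {𝒱 : VarClass k} {ops : CycleOps 𝒱}
  {W : WeilCohomology.{u, v} ops}

/-- `A` is an abelian variety (as far as its cohomology is concerned) with a divisor `D` with hard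
Lefschetz such that every non-zero subspace of `H^1(A)` which is stable under the algebraic
correspondences of degree `0` and under the symmetries which multiply the class of `D` by a non-zero
constant pairs non-trivially with itself, by an algebraic correspondence. -/
def IsAnisotropicAbelian (W : WeilCohomology.{u, v} ops) (A : 𝒱.Obj) : Prop :=
  ∃ (𝒢 : Set (Symmetry W)) (m : A.prod A ⟶ A) (D : A.Cycles),
    IsAbelianType 𝒢 A m D ∧ AnisotropicOne 𝒢 A

lemma selfPairing_of_empty {X : 𝒱.Obj} (h : Anisotropic (∅ : Set (Symmetry W)) X) :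
    SelfPairing W X := by
  intro V hV hne hs
  apply h V hV hne
  rintro e (he | ⟨S, hS, -⟩)
  · exact hs e he
  · exact absurd hS (Set.notMem_empty S)

lemma exists_finset {R 𝒴 : Set 𝒱.Obj} {Z : 𝒱.Obj} (h : IsProductOf (R ∪ 𝒴) Z) :
    ∃ F : Set 𝒱.Obj, F.Finite ∧ F ⊆ R ∧ IsProductOf (F ∪ 𝒴) Z := by
  induction h with
  | @base X hX =>
    rcases hX with hX | hX
    · exact ⟨{X}, Set.finite_singleton _, Set.singleton_subset_iff.2 hX,
        IsProductOf.base (Or.inl rfl)⟩
    · exact ⟨∅, Set.finite_empty, Set.empty_subset _, IsProductOf.base (Or.inr hX)⟩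
  | prod _ _ h1 h2 =>
    obtain ⟨F, hF, hF1, hF2⟩ := h1
    obtain ⟨G, hG, hG1, hG2⟩ := h2
    refine ⟨F ∪ G, hF.union hG, Set.union_subset hF1 hG1, IsProductOf.prod ?_ ?_⟩
    · exact isProductOf_mono (Set.union_subset_union_left _ Set.subset_union_left) hF2
    · exact isProductOf_mono (Set.union_subset_union_left _ Set.subset_union_right) hG2

theorem abelian {R 𝒴 : Set 𝒱.Obj} (hR : ∀ A ∈ R, IsAnisotropicAbelian W A)
    (h𝒴 : ∀ Y, IsProductOf 𝒴 Y → HomEqNum W Y) {Z : 𝒱.Obj} (hZ : IsProductOf (R ∪ 𝒴) Z) :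
    HomEqNum W Z := by
  obtain ⟨F, hF, hFR, hZ⟩ := exists_finset hZ
  have key : ∀ F : Set 𝒱.Obj, F.Finite → F ⊆ R → ∀ Z, IsProductOf (F ∪ 𝒴) Z → HomEqNum W Z := by
    intro F hF
    induction F, hF using Set.Finite.induction_on with
    | empty =>
      intro _ Z hZ
      rw [Set.empty_union] at hZ
      exact h𝒴 Z hZ
    | @insert A F _ _ ih =>
      intro hF Z hZ
      obtain ⟨𝒢, m, D, h1, h2⟩ := hR A (hF (Set.mem_insert _ _))
      have h3 := ih (fun X hX => hF (Set.mem_insert_of_mem _ hX))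
      refine homEqNum_of_anisotropicOne (𝒢 := 𝒢) (P := {A}) (𝒴 := F ∪ 𝒴) ?_ ?_ h3 ?_
      · rintro X rfl
        exact ⟨m, D, h1⟩
      · rintro X rfl
        exact h2
      · rw [← Set.union_assoc, Set.singleton_union]
        exact hZ
  exact key F hF hFR Z hZ

/-- **The conjectures D and B for all varieties dominated by products.** -/
theorem main {P Q 𝒴 : Set 𝒱.Obj}
    (hP : ∀ X ∈ P, SignAlgebraic W X ∧ Anisotropic (Set.univ : Set (Symmetry W)) X)
    (hQ : ∀ X ∈ Q, CommutativeCommutant W X ∧ Anisotropic (∅ : Set (Symmetry W)) X) :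
    ((∀ X ∈ P ∪ Q, HomEqNum W X) ∧ ∀ Y, IsProductOf 𝒴 Y → HomEqNum W Y) ↔
      ∀ Z, IsProductOf (P ∪ Q ∪ 𝒴) Z → ∀ V, Dominates W Z V → HomEqNum W V ∧
        ∀ D, V.IsCyc 1 D → HardLefschetz W V D → LefschetzB W V D := by
  constructor
  · rintro ⟨h1, h2⟩
    apply dominated_of_products
    intro Z hZ
    have e1 : ∀ Y, IsProductOf (Q ∪ 𝒴) Y → HomEqNum W Y := fun Y hY =>
      homEqNum_of_selfPairing (fun X hX => h1 X (Or.inr hX)) (fun X hX => (hQ X hX).1)
        (fun X hX => selfPairing_of_empty (hQ X hX).2) h2 hY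
    have e3 : ∀ Y, IsProductOf (P ∪ (Q ∪ 𝒴)) Y → HomEqNum W Y := fun Y hY =>
      homEqNum_of_anisotropic (fun X hX => h1 X (Or.inl hX)) (fun X hX => (hP X hX).1)
        (fun X hX => (hP X hX).2) e1 hY
    apply e3
    rw [← Set.union_assoc]
    exact hZ
  · intro h
    refine ⟨fun X hX => ?_, fun Y hY => ?_⟩
    · exact (h X (IsProductOf.base (Or.inl hX)) X (dominates_refl X)).1
    · exact (h Y (isProductOf_mono Set.subset_union_right hY) Y (dominates_refl Y)).1

end Pool.Agent.N190.An
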